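import Mathlib

/-!
# AG-ONE: an invariant line for a semilinear map over a finite field

Norms of finite fields are surjective and the powers of an automorphism are independent.
-/

set_option autoImplicit false

namespace Pool.Agent.Helper48.AG

open Finset

/-- Every element fixed by `t` is a norm. -/
theorem exists_norm {R : Type*} [Field R] [Finite R] (t : RingAut R) (c : R) (hc : t c = c) :
    ∃ b : R, ∏ i ∈ range (orderOf t), (t ^ i) b = c := by
  classical
  have hfin : Finite (RingAut R) :=
    Finite.of_injective (fun f : RingAut R => (f : R → R)) DFunLike.coe_injective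
  have : Fintype (Subgroup.zpowers t) := Fintype.ofFinite _
  let K := FixedPoints.subfield (Subgroup.zpowers t) R
  have hcK : c ∈ K := by
    intro g
    obtain ⟨n, hn⟩ := (isOfFinOrder_of_finite t).mem_powers_iff_mem_zpowers.2 g.2
    have key : ∀ n : ℕ, (t ^ n) c = c := by
      intro n
      induction n with
      | zero => simp
      | succ n ih =>
        rw [pow_succ]
        change (t ^ n) (t c) = c
        rw [hc, ih]
    have : g • c = (g : RingAut R) c := rfl
    rw [this, ← hn]
    exact key n
  obtain ⟨b, hb⟩ := FiniteField.norm_surjective K R ⟨c, hcK⟩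
  refine ⟨b, ?_⟩
  have h1 := Algebra.norm_eq_prod_automorphisms K b
  rw [hb] at h1
  have h2 : (algebraMap K R) ⟨c, hcK⟩ = c := rfl
  rw [h2] at h1
  rw [h1, ← (FixedPoints.toAlgAutMulEquiv (Subgroup.zpowers t) R).toEquiv.prod_comp,
    ← (finEquivZPowers (isOfFinOrder_of_finite t)).prod_comp, ← Fin.prod_univ_eq_prod_range
      (fun i => (t ^ i) b)]
  rfl

/-- A semilinear automorphism `s` of a vector space over a finite field, with
`s ^ d = c` for the order `d` of the automorphism `t`, has an invariant line. -/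
theorem exists_line {R U : Type*} [Field R] [Finite R] [AddCommGroup U] [Module R U]
    [Nontrivial U] (t : RingAut R) (s : U → U) (hadd : ∀ u v, s (u + v) = s u + s v)
    (hs : ∀ (r : R) (u : U), s (r • u) = t r • s u) (c : R) (hc0 : c ≠ 0)
    (hc : ∀ u, s^[orderOf t] u = c • u) :
    ∃ (v : U) (b : R), v ≠ 0 ∧ b ≠ 0 ∧ s v = b • v := by
  classical
  have hfin : Finite (RingAut R) :=
    Finite.of_injective (fun f : RingAut R => (f : R → R)) DFunLike.coe_injective
  set d := orderOf t with hd
  have hd0 : 0 < d := orderOf_pos t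
  obtain ⟨u, hu⟩ := exists_ne (0 : U)
  have hct : t c = c := by
    have h1 : s (s^[d] u) = s^[d] (s u) := by
      exact (Function.iterate_succ_apply' s d u).symm.trans (Function.iterate_succ_apply s d u)
    rw [hc, hc, hs] at h1
    have hsu : s u ≠ 0 := by
      intro h0
      have h2 : s^[d] u = 0 := by
        obtain ⟨e, he⟩ : ∃ e, d = e + 1 := ⟨d - 1, by omega⟩
        have hz : ∀ e : ℕ, s^[e] (0 : U) = 0 := by
          intro e
          have hz1 : s 0 = 0 := by simpa using hs 0 0
          induction e with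
          | zero => rfl
          | succ e ih => rw [Function.iterate_succ_apply', ih, hz1]
        rw [he, Function.iterate_succ_apply, h0, hz]
      rw [hc] at h2
      rcases smul_eq_zero.1 h2 with h3 | h3
      · exact hc0 h3
      · exact hu h3
    have h2 : (t c - c) • s u = 0 := by rw [sub_smul, h1, sub_self]
    rcases smul_eq_zero.1 h2 with h3 | h3
    · exact sub_eq_zero.1 h3
    · exact absurd h3 hsu
  obtain ⟨b, hb⟩ := exists_norm t c hct
  rw [← hd] at hb
  have hb0 : b ≠ 0 := by
    rintro rfl
    apply hc0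
    rw [← hb]
    exact prod_eq_zero (mem_range.2 hd0) (map_zero _)
  -- the cocycle
  let β : ℕ → R := fun i => ∏ j ∈ range i, (t ^ j) b
  have hβ0 : ∀ i, β i ≠ 0 := by
    intro i
    apply prod_ne_zero_iff.2
    intro j _
    exact (map_ne_zero_iff _ (t ^ j).injective).2 hb0
  have hβs : ∀ i, β (i + 1) = b * t (β i) := by
    intro i
    change ∏ j ∈ range (i + 1), (t ^ j) b = b * t (∏ j ∈ range i, (t ^ j) b)
    rw [prod_range_succ', map_prod, mul_comm]
    congr 1
    apply prod_congr rfl
    intro j _
    rw [pow_succ']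
    rfl
  have hβz : β 0 = 1 := prod_range_zero _
  have hβd : β d = c := hb
  have hsum : ∀ (I : Finset ℕ) (f : ℕ → U), s (∑ i ∈ I, f i) = ∑ i ∈ I, s (f i) := by
    intro I f
    have hz1 : s 0 = 0 := by simpa using hs 0 0
    induction I using Finset.induction_on with
    | empty => simpa using hz1
    | insert a I ha ih => rw [sum_insert ha, sum_insert ha, hadd, ih]
  have hit : ∀ (i : ℕ) (x : R) (u : U), s^[i] (x • u) = (t ^ i) x • s^[i] u := by
    intro i x u
    induction i with
    | zero => simp
    | succ i ih =>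
      rw [Function.iterate_succ_apply', Function.iterate_succ_apply', ih, hs, pow_succ']
      rfl
  let V : R → U := fun x => ∑ i ∈ range d, (β i)⁻¹ • s^[i] (x • u)
  have hV : ∀ x, s (V x) = b • V x := by
    intro x
    have h1 : s (V x) = ∑ i ∈ range d, b • ((β (i + 1))⁻¹ • s^[i + 1] (x • u)) := by
      change s (∑ i ∈ range d, (β i)⁻¹ • s^[i] (x • u)) = _
      rw [hsum]
      apply sum_congr rfl
      intro i _
      rw [hs, ← Function.iterate_succ_apply' s i, smul_smul, hβs, map_inv₀, mul_inv,
        mul_inv_cancel_left₀ hb0]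
    rw [h1, ← smul_sum]
    congr 1
    have h2 := sum_range_succ' (fun i => (β i)⁻¹ • s^[i] (x • u)) d
    have h3 := sum_range_succ (fun i => (β i)⁻¹ • s^[i] (x • u)) d
    rw [h2] at h3
    have h4 : (β 0)⁻¹ • s^[0] (x • u) = x • u := by
      rw [hβz, inv_one, one_smul]
      rfl
    have h5 : (β d)⁻¹ • s^[d] (x • u) = x • u := by
      rw [hβd, hc, smul_smul, inv_mul_cancel₀ hc0, one_smul]
    rw [h4, h5] at h3
    exact add_right_cancel h3
  by_contra hno
  push Not at hno
  have hV0 : ∀ x, V x = 0 := by
    intro x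
    by_contra hx
    exact hno (V x) b hx hb0 (hV x)
  -- independence
  have hℓ : ∃ ℓ : U →ₗ[R] R, ℓ u ≠ 0 := by
    by_contra hcon
    push Not at hcon
    exact hu ((Module.forall_dual_apply_eq_zero_iff R u).1 hcon)
  obtain ⟨ℓ, hℓ⟩ := hℓ
  have hli : LinearIndependent R (fun i : Fin d => ((t ^ (i : ℕ) : RingAut R) : R → R)) := by
    have h0 := linearIndependent_monoidHom R R
    have hinj : Function.Injective
        (fun i : Fin d => (((t ^ (i : ℕ) : RingAut R) : R →+* R) : R →* R)) := by
      intro i j hij
      have h1 : t ^ (i : ℕ) = t ^ (j : ℕ) := by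
        ext x
        exact DFunLike.congr_fun hij x
      exact Fin.ext (pow_injOn_Iio_orderOf (Set.mem_Iio.2 i.2) (Set.mem_Iio.2 j.2) h1)
    exact h0.comp _ hinj
  rw [Fintype.linearIndependent_iff] at hli
  have h1 := hli (fun i => (β i)⁻¹ * ℓ (s^[i] u)) (by
    funext x
    rw [Finset.sum_apply]
    have h2 : ℓ (V x) = 0 := by rw [hV0, map_zero]
    change ∑ i : Fin d, ((β i)⁻¹ * ℓ (s^[i] u)) * (t ^ (i : ℕ)) x = 0
    rw [← h2]
    change _ = ℓ (∑ i ∈ range d, (β i)⁻¹ • s^[i] (x • u))
    rw [map_sum, ← Fin.sum_univ_eq_sum_range (fun i => ℓ ((β i)⁻¹ • s^[i] (x • u)))]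
    apply sum_congr rfl
    intro i _
    rw [hit, map_smul, map_smul, smul_eq_mul, smul_eq_mul]
    ring) ⟨0, hd0⟩
  simp only [hβz, inv_one, one_mul, Function.iterate_zero, id_eq] at h1
  exact hℓ h1

end Pool.Agent.Helper48.AG
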